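import Pool.Agent.P.MP_a42607_nt.Main
import Pool.Agent.P.MP_a42607_nt.Top

namespace Pool.Agent.Results.MP_a42607_nt.UpperBound

/-- Every `B₂[g]` subset of `{1, …, n}` (`g ≥ 2`) has at most `√((20 g - 10 / g) n / 7) + 128`
elements. -/
theorem result (g n : ℕ) (hg : 2 ≤ g) (A : Finset ℕ) (hA : A ⊆ Finset.Icc 1 n)
    (hB : ∀ m : ℕ, ((A ×ˢ A).filter (fun p => p.1 ≤ p.2 ∧ p.1 + p.2 = m)).card ≤ g) :
    (A.card : ℝ) ≤ Real.sqrt ((20 * (g : ℝ) - 10 / (g : ℝ)) / 7 * (n : ℝ)) + 128 :=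
  open Pool.Agent.P.MP_a42607_nt in
  bound root_a root_b root_c root_d root_e g n hg A hA hB

end Pool.Agent.Results.MP_a42607_nt.UpperBound
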